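import Pool.Agent.W734.STS.Stms

/-!
# Project STS, part ADD1: additivity of observables over concatenations of Fibonacci words
-/

set_option autoImplicit false

noncomputable section

namespace Pool.Agent.W699.STS

open Pool.Agent.W734.STS

/-- sum over the windows of `w ++ v` starting in `w` -/
def X (r : ℕ) (h : (Fin r → Fin 2) → ℝ) (w v : List (Fin 2)) : ℝ :=
  ∑ t ∈ Finset.range w.length, h (fun s => (w ++ v).getD (t + s) 0)

lemma X_append (r : ℕ) (h : (Fin r → Fin 2) → ℝ) (w₁ w₂ v : List (Fin 2)) :
    X r h (w₁ ++ w₂) v = X r h w₁ (w₂ ++ v) + X r h w₂ v := by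
  unfold X
  rw [List.length_append, Finset.sum_range_add, List.append_assoc]
  congr 1
  refine Finset.sum_congr rfl fun t _ => ?_
  congr 1
  funext s
  rw [List.getD_append_right _ _ _ _ (by omega)]
  congr 1
  omega

lemma X_congr (r : ℕ) (h : (Fin r → Fin 2) → ℝ) (w v v' : List (Fin 2))
    (hv : ∀ i < r, v.getD i 0 = v'.getD i 0) : X r h w v = X r h w v' := by
  unfold X
  refine Finset.sum_congr rfl fun t ht => ?_
  rw [Finset.mem_range] at ht
  congr 1
  funext s
  have hs := s.2
  rcases lt_or_ge (t + s) w.length with h1 | h1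
  · rw [List.getD_append _ _ _ _ h1, List.getD_append _ _ _ _ h1]
  · rw [List.getD_append_right _ _ _ _ h1, List.getD_append_right _ _ _ _ h1]
    exact hv _ (by omega)

lemma X_diff (r : ℕ) (h : (Fin r → Fin 2) → ℝ) (B : ℝ) (hB : ∀ x, |h x| ≤ B)
    (w v v' : List (Fin 2)) : |X r h w v - X r h w v'| ≤ 2 * B * r := by
  have hB0 : 0 ≤ B := (abs_nonneg _).trans (hB (fun _ => 0))
  unfold X
  rw [← Finset.sum_sub_distrib]
  refine (Finset.abs_sum_le_sum_abs _ _).trans ?_
  have h1 : ∀ t ∈ Finset.range w.length, |h (fun s => (w ++ v).getD (t + s) 0) -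
      h (fun s => (w ++ v').getD (t + s) 0)| ≤ if w.length < t + r then 2 * B else 0 := by
    intro t ht
    split_ifs with hc
    · have h2 := hB (fun s => (w ++ v).getD (t + s) 0)
      have h3 := hB (fun s => (w ++ v').getD (t + s) 0)
      refine (abs_sub _ _).trans ?_
      linarith
    · have : (fun s : Fin r => (w ++ v).getD (t + s) 0) =
          (fun s : Fin r => (w ++ v').getD (t + s) 0) := by
        funext s
        have hs := s.2
        rw [List.getD_append _ _ _ _ (by omega), List.getD_append _ _ _ _ (by omega)]
      rw [this, sub_self, abs_zero]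
  refine (Finset.sum_le_sum h1).trans ?_
  rw [← Finset.sum_filter, Finset.sum_const, nsmul_eq_mul]
  have h2 : ((Finset.range w.length).filter (fun t => w.length < t + r)).card ≤ r := by
    have : (Finset.range w.length).filter (fun t => w.length < t + r) ⊆
        Finset.Ico (w.length - r) w.length := by
      intro t ht
      rw [Finset.mem_filter, Finset.mem_range] at ht
      rw [Finset.mem_Ico]
      omega
    refine (Finset.card_le_card this).trans ?_
    rw [Nat.card_Ico]
    omega
  have h3 : (((Finset.range w.length).filter (fun t => w.length < t + r)).card : ℝ) ≤ r := by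
    exact_mod_cast h2
  nlinarith

lemma X_le (r : ℕ) (h : (Fin r → Fin 2) → ℝ) (B : ℝ) (hB : ∀ x, |h x| ≤ B)
    (w v : List (Fin 2)) : |X r h w v| ≤ w.length * B := by
  unfold X
  refine (Finset.abs_sum_le_sum_abs _ _).trans ?_
  refine (Finset.sum_le_sum fun t _ => hB _).trans ?_
  rw [Finset.sum_const, Finset.card_range, nsmul_eq_mul]

lemma Hs_X (r : ℕ) (h : (Fin r → Fin 2) → ℝ) (B : ℝ) (hB : ∀ x, |h x| ≤ B)
    (u : List (Fin 2)) : |Hs r h u - X r h u []| ≤ ((r : ℝ) + 1) * B := by
  have hB0 : 0 ≤ B := (abs_nonneg _).trans (hB (fun _ => 0))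
  unfold Hs X
  rw [List.append_nil]
  rcases Nat.eq_zero_or_pos r with h0 | h0
  · have e : u.length + 1 - r = u.length + 1 := by omega
    rw [e, Finset.sum_range_succ, add_sub_cancel_left]
    refine (hB _).trans ?_
    rw [h0]
    push_cast
    linarith
  · have hle : u.length + 1 - r ≤ u.length := by omega
    rw [abs_sub_comm, ← Finset.sum_Ico_eq_sub _ hle]
    refine (Finset.abs_sum_le_sum_abs _ _).trans ?_
    refine (Finset.sum_le_sum fun t _ => hB _).trans ?_
    rw [Finset.sum_const, Nat.card_Ico, nsmul_eq_mul]
    have h1 : u.length - (u.length + 1 - r) ≤ r + 1 := by omega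
    have h2 : ((u.length - (u.length + 1 - r) : ℕ) : ℝ) ≤ (r : ℝ) + 1 := by exact_mod_cast h1
    exact mul_le_mul_of_nonneg_right h2 hB0

lemma S_pos : ∀ n, 1 ≤ (S n).length ∧ n ≤ (S n).length
  | 0 => by simp [S]
  | 1 => by simp [S]
  | (n + 2) => by
    have h1 := S_pos n
    have h2 := S_pos (n + 1)
    rw [S, List.length_append]
    omega

lemma S_prefix (m k : ℕ) (hm : 1 ≤ m) (hk : m ≤ k) : ∃ v, S k = S m ++ v := by
  induction k, hk using Nat.le_induction with
  | base => exact ⟨[], (List.append_nil _).symm⟩
  | succ k hk ih =>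
    obtain ⟨v, hv⟩ := ih
    obtain ⟨j, rfl⟩ : ∃ j, k = j + 1 := ⟨k - 1, by omega⟩
    refine ⟨v ++ S j, ?_⟩
    rw [S, hv, List.append_assoc]

/-- does the list begin with a long word? -/
def hd (m : ℕ) : List ℕ → ℝ
  | [] => 0
  | (k :: _) => if m ≤ k then 1 else 0

lemma hd_cons (m k : ℕ) (ks : List ℕ) : hd m (k :: ks) = if m ≤ k then 1 else 0 := rfl

lemma hd_nonneg (m : ℕ) (ks : List ℕ) : 0 ≤ hd m ks := by
  cases ks with
  | nil => exact le_rfl
  | cons k ks => rw [hd_cons]; split_ifs <;> norm_num

lemma hd_le (m : ℕ) (ks : List ℕ) : hd m ks ≤ 1 := by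
  cases ks with
  | nil => simp [hd]
  | cons k ks => rw [hd_cons]; split_ifs <;> norm_num

theorem add1 : S_ADD1 := by
  intro r h
  set B : ℝ := ∑ x : Fin r → Fin 2, |h x| with hBdef
  have hB : ∀ x, |h x| ≤ B := fun x =>
    Finset.single_le_sum (f := fun x => |h x|) (fun _ _ => abs_nonneg _) (Finset.mem_univ x)
  have hB0 : 0 ≤ B := (abs_nonneg _).trans (hB (fun _ => 0))
  obtain ⟨M, hM1, hMr⟩ : ∃ M, 1 ≤ M ∧ r ≤ (S M).length :=
    ⟨r + 1, by omega, (Nat.le_succ r).trans (S_pos (r + 1)).2⟩
  set L : ℕ := ∑ k ∈ Finset.range M, (S k).length with hL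
  have hLk : ∀ k < M, (S k).length ≤ L := fun k hk =>
    Finset.single_le_sum (f := fun k => (S k).length) (fun _ _ => Nat.zero_le _)
      (Finset.mem_range.2 hk)
  -- words beginning with `S M`
  have hpre : ∀ (w v : List (Fin 2)), X r h w (S M ++ v) = X r h w (S M) := by
    intro w v
    refine X_congr r h w _ _ fun i hi => ?_
    rw [List.getD_append _ _ _ _ (by omega)]
  set c : ℕ → ℝ := fun k => X r h (S k) (S M) with hc
  refine ⟨M, c, ((r : ℝ) + 1) * B + 2 * B * r + L * B, by positivity, ?_, ?_⟩
  · intro k hk
    obtain ⟨v, hv⟩ := S_prefix M k hM1 hk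
    simp only [hc]
    rw [S, X_append]
    congr 1
    conv_lhs => rw [hv]
    rw [List.append_assoc, hpre]
  · intro ks
    have key : ∀ ks : List ℕ, |X r h ((ks.map S).flatten) [] -
        ((ks.filter (fun k => M ≤ k)).map c).sum| ≤
          2 * B * r * (((ks.filter (fun k => k < M)).length : ℝ) + hd M ks) +
            L * B * ((ks.filter (fun k => k < M)).length : ℝ) := by
      intro ks
      induction ks with
      | nil =>
        simp [X, hd]
      | cons k ks ih =>
        have hU : ((k :: ks).map S).flatten = S k ++ (ks.map S).flatten := by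
          rw [List.map_cons, List.flatten_cons]
        rw [hU, X_append, List.append_nil]
        rcases le_or_gt M k with hk | hk
        · have e1 : (k :: ks).filter (fun k => decide (M ≤ k)) =
              k :: ks.filter (fun k => decide (M ≤ k)) := List.filter_cons_of_pos (by simpa using hk)
          have e2 : (k :: ks).filter (fun k => decide (k < M)) =
              ks.filter (fun k => decide (k < M)) := List.filter_cons_of_neg (by simpa using hk)
          have e3 : hd M (k :: ks) = 1 := by rw [hd_cons, if_pos hk]
          rw [e1, e2, e3, List.map_cons, List.sum_cons]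
          have h1 : |X r h (S k) ((ks.map S).flatten) - c k| ≤ 2 * B * r * (1 - hd M ks) := by
            cases ks with
            | nil =>
              have := X_diff r h B hB (S k) [] (S M)
              simpa [hd, hc] using this
            | cons k' ks' =>
              rcases le_or_gt M k' with hk' | hk'
              · obtain ⟨v, hv⟩ := S_prefix M k' hM1 hk'
                rw [List.map_cons, List.flatten_cons, hv, List.append_assoc, hpre, sub_self,
                  abs_zero]
                rw [hd_cons, if_pos hk', sub_self, mul_zero]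
              · have := X_diff r h B hB (S k) (((k' :: ks').map S).flatten) (S M)
                rw [hd_cons, if_neg (not_le.2 hk'), sub_zero, mul_one]
                exact this
          have h2 : X r h (S k) ((ks.map S).flatten) + X r h ((ks.map S).flatten) [] -
              (c k + ((ks.filter (fun k => decide (M ≤ k))).map c).sum) =
              (X r h (S k) ((ks.map S).flatten) - c k) + (X r h ((ks.map S).flatten) [] -
                ((ks.filter (fun k => decide (M ≤ k))).map c).sum) := by ring
          rw [h2]
          refine (abs_add_le _ _).trans ?_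
          nlinarith [h1, ih]
        · have e1 : (k :: ks).filter (fun k => decide (M ≤ k)) =
              ks.filter (fun k => decide (M ≤ k)) := List.filter_cons_of_neg (by simpa using hk)
          have e2 : (k :: ks).filter (fun k => decide (k < M)) =
              k :: ks.filter (fun k => decide (k < M)) := List.filter_cons_of_pos (by simpa using hk)
          have e3 : hd M (k :: ks) = 0 := by rw [hd_cons, if_neg (not_le.2 hk)]
          rw [e1, e2, e3, List.length_cons]
          have h1 : |X r h (S k) ((ks.map S).flatten)| ≤ L * B := by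
            refine (X_le r h B hB _ _).trans ?_
            refine mul_le_mul_of_nonneg_right ?_ hB0
            exact_mod_cast hLk k hk
          have h2 : X r h (S k) ((ks.map S).flatten) + X r h ((ks.map S).flatten) [] -
              ((ks.filter (fun k => decide (M ≤ k))).map c).sum =
              X r h (S k) ((ks.map S).flatten) + (X r h ((ks.map S).flatten) [] -
                ((ks.filter (fun k => decide (M ≤ k))).map c).sum) := by ring
          rw [h2]
          refine (abs_add_le _ _).trans ?_
          push_cast
          have h3 := hd_le M ks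
          have h4 : 0 ≤ 2 * B * r := by positivity
          nlinarith [mul_le_mul_of_nonneg_left h3 h4]
    have h1 := key ks
    have h2 := Hs_X r h B hB ((ks.map S).flatten)
    have h3 := hd_le M ks
    have h4 : 0 ≤ 2 * B * r := by positivity
    have h5 : (0 : ℝ) ≤ ((ks.filter (fun k => k < M)).length : ℝ) := Nat.cast_nonneg _
    have h6 : 0 ≤ ((r : ℝ) + 1) * B := by positivity
    have h7 : (0 : ℝ) ≤ L * B := by positivity
    have h8 : Hs r h ((ks.map S).flatten) - ((ks.filter (fun k => M ≤ k)).map c).sum =
        (Hs r h ((ks.map S).flatten) - X r h ((ks.map S).flatten) []) +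
          (X r h ((ks.map S).flatten) [] - ((ks.filter (fun k => M ≤ k)).map c).sum) := by ring
    rw [h8]
    refine (abs_add_le _ _).trans ?_
    nlinarith [mul_le_mul_of_nonneg_left h3 h4, mul_nonneg h6 h5]

end Pool.Agent.W699.STS
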